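import Mathlib

open Polynomial

namespace Pool.Agent.Old.MP_328b17_nt.Disproof

/-- The indeterminate `q`, as a rational function over `ℚ`. -/
noncomputable def q : RatFunc ℚ := RatFunc.X

/-- The `q`-integer `[m] = (1 - q^m)/(1 - q)` for an integer `m`. -/
noncomputable def qInt (m : ℤ) : RatFunc ℚ := (1 - q ^ m) / (1 - q)

/-- The shifted factorial `(a; b)_k = (1 - a)(1 - a b) ... (1 - a b^(k-1))`. -/
noncomputable def qPoch (a b : RatFunc ℚ) (k : ℕ) : RatFunc ℚ :=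
  ∏ i ∈ Finset.range k, (1 - a * b ^ i)

/-- The sum `S_p(q)`. -/
noncomputable def S (p : ℕ) : RatFunc ℚ :=
  ∑ j ∈ Finset.range p,
    qInt (2 * ((p : ℤ) - 1) * (j : ℤ) - 1) *
      (qPoch q⁻¹ (q ^ (p - 1)) j / qPoch (q ^ (p - 1)) (q ^ (p - 1)) j) ^ (2 * (p - 1)) *
      q ^ (j * (p - 1) ^ 2)

/-- Congruence of rational functions modulo a polynomial `P`. -/
def Cong (P : ℚ[X]) (x y : RatFunc ℚ) : Prop :=
  ∃ A B C D : ℚ[X], B ≠ 0 ∧ D ≠ 0 ∧ IsCoprime B P ∧ IsCoprime D P ∧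
    x = algebraMap ℚ[X] (RatFunc ℚ) A / algebraMap ℚ[X] (RatFunc ℚ) B ∧
    y = algebraMap ℚ[X] (RatFunc ℚ) C / algebraMap ℚ[X] (RatFunc ℚ) D ∧
    Polynomial.toLaurent P ∣ Polynomial.toLaurent (A * D - B * C)

section Proof

/-- numerator of one term, over any commutative ring -/
def num {R : Type*} [CommRing R] (x : R) (j : ℕ) : R :=
  (x - x ^ (20 * j)) * x ^ (80 * j) * (∏ i ∈ Finset.range j, (x - x ^ (10 * i))) ^ 20 *
    (∏ i ∈ Finset.Ico j 10, (1 - x ^ (10 * (i + 1)))) ^ 20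

def den {R : Type*} [CommRing R] (x : R) : R :=
  x * (1 - x) * (∏ i ∈ Finset.range 10, (1 - x ^ (10 * (i + 1)))) ^ 20

def phi {R : Type*} [CommRing R] (x : R) : R := ∑ i ∈ Finset.range 11, x ^ i

def big {R : Type*} [CommRing R] (x : R) : R :=
  ∑ j ∈ Finset.range 11, num x j - 20520 * (1 - x) ^ 2 * phi x ^ 4 * den x

lemma map_phi {R T : Type*} [CommRing R] [CommRing T] (f : R →+* T) (x : R) :
    f (phi x) = phi (f x) := by simp [phi]

lemma map_den {R T : Type*} [CommRing R] [CommRing T] (f : R →+* T) (x : R) :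
    f (den x) = den (f x) := by simp [den]

lemma map_big {R T : Type*} [CommRing R] [CommRing T] (f : R →+* T) (x : R) :
    f (big x) = big (f x) := by
  simp [big, num, map_phi, map_den, map_ofNat]

lemma not_dvd : ¬ (phi (2 : ℤ)) ^ 5 ∣ big (2 : ℤ) := by decide +kernel

lemma q_ne : q ≠ 0 := RatFunc.X_ne_zero

lemma one_sub_pow_ne (n : ℕ) (hn : n ≠ 0) : (1 - q ^ n) ≠ 0 := by
  have h : (1 - q ^ n) = algebraMap ℚ[X] (RatFunc ℚ) (1 - X ^ n) := by
    simp [q]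
  rw [h]
  intro h0
  have h1 : (1 - X ^ n : ℚ[X]) = 0 := by
    exact (map_eq_zero_iff _ (IsFractionRing.injective ℚ[X] (RatFunc ℚ))).1 h0
  have := congrArg (Polynomial.eval 0) h1
  simp [hn] at this

lemma term_eq (j : ℕ) (hj : j ≤ 10) :
    qInt (2 * (((11 : ℕ) : ℤ) - 1) * (j : ℤ) - 1) *
      (qPoch q⁻¹ (q ^ (11 - 1)) j / qPoch (q ^ (11 - 1)) (q ^ (11 - 1)) j) ^ (2 * (11 - 1)) *
      q ^ (j * (11 - 1) ^ 2) * den q = num q j := by
  have hq := q_ne
  have h1 : (1 - q) ≠ 0 := by simpa using one_sub_pow_ne 1 one_ne_zero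
  have e1 : qInt (2 * (((11 : ℕ) : ℤ) - 1) * (j : ℤ) - 1) = (q - q ^ (20 * j)) / (q * (1 - q)) := by
    have : (2 * (((11 : ℕ) : ℤ) - 1) * (j : ℤ) - 1) = ((20 * j : ℕ) : ℤ) - 1 := by push_cast; ring
    rw [qInt, this, zpow_sub₀ hq, zpow_natCast, zpow_one]
    field_simp
  have e2 : qPoch q⁻¹ (q ^ (11 - 1)) j = (∏ i ∈ Finset.range j, (q - q ^ (10 * i))) / q ^ j := by
    rw [qPoch, eq_div_iff (pow_ne_zero _ hq)]
    have : q ^ j = ∏ _i ∈ Finset.range j, q := by simp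
    rw [this, ← Finset.prod_mul_distrib]
    refine Finset.prod_congr rfl fun i _ => ?_
    rw [← pow_mul]
    field_simp
  have e3 : qPoch (q ^ (11 - 1)) (q ^ (11 - 1)) j =
      ∏ i ∈ Finset.range j, (1 - q ^ (10 * (i + 1))) := by
    rw [qPoch]
    refine Finset.prod_congr rfl fun i _ => ?_
    rw [← pow_mul, ← pow_add]
    congr 2
    ring
  have h3 : (∏ i ∈ Finset.range j, (1 - q ^ (10 * (i + 1)))) ≠ 0 :=
    Finset.prod_ne_zero_iff.2 fun i _ => one_sub_pow_ne _ (by omega)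
  have e4 : (∏ i ∈ Finset.range 10, (1 - q ^ (10 * (i + 1)))) =
      (∏ i ∈ Finset.range j, (1 - q ^ (10 * (i + 1)))) *
        ∏ i ∈ Finset.Ico j 10, (1 - q ^ (10 * (i + 1))) :=
    (Finset.prod_range_mul_prod_Ico _ hj).symm
  rw [e1, e2, e3, den, num, e4]
  have e5 : q ^ (j * (11 - 1) ^ 2) = q ^ (80 * j) * (q ^ j) ^ 20 := by
    rw [← pow_mul, ← pow_add]; congr 1; ring
  rw [e5]
  generalize (∏ i ∈ Finset.range j, (1 - q ^ (10 * (i + 1)))) = u at h3 ⊢
  generalize (∏ i ∈ Finset.Ico j 10, (1 - q ^ (10 * (i + 1)))) = v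
  generalize (∏ i ∈ Finset.range j, (q - q ^ (10 * i))) = w
  have h4 : q ^ j ≠ 0 := pow_ne_zero _ hq
  generalize q ^ j = z at h4 ⊢
  generalize q ^ (80 * j) = z1
  generalize q ^ (20 * j) = z2
  norm_num only
  field_simp

lemma cyc : cyclotomic 11 ℚ = phi (X : ℚ[X]) := by
  have : Fact (Nat.Prime 11) := ⟨by norm_num⟩
  rw [cyclotomic_prime, phi]

lemma fails : ¬ Cong (cyclotomic 11 ℚ ^ 5) (S 11)
    (20520 * (1 - q) ^ 2 * algebraMap ℚ[X] (RatFunc ℚ) (cyclotomic 11 ℚ) ^ 4) := by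
  rintro ⟨A, B, C, D, hB, hD, cB, cD, hx, hy, hdvd⟩
  have inj := IsFractionRing.injective ℚ[X] (RatFunc ℚ)
  set f := algebraMap ℚ[X] (RatFunc ℚ) with hf
  have fX : f X = q := by simp [hf, q]
  have hB' : f B ≠ 0 := fun h => hB ((map_eq_zero_iff _ inj).1 h)
  have hD' : f D ≠ 0 := fun h => hD ((map_eq_zero_iff _ inj).1 h)
  have key : f (big X) = (S 11 - 20520 * (1 - q) ^ 2 * f (cyclotomic 11 ℚ) ^ 4) * den q := by
    rw [map_big, fX, cyc, map_phi, fX, sub_mul, big, S, Finset.sum_mul]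
    congr 1
    refine Finset.sum_congr rfl fun j hj => ?_
    exact (term_eq j (by have := Finset.mem_range.1 hj; omega)).symm
  have key2 : big X * (B * D) = (A * D - B * C) * den X := by
    apply inj
    rw [map_mul, key, hy, hx, map_mul, map_mul, map_den, fX, map_sub, map_mul, map_mul]
    field_simp
  -- from Laurent divisibility to polynomial divisibility
  obtain ⟨g, hg⟩ := hdvd
  obtain ⟨n, g', hg'⟩ := LaurentPolynomial.exists_T_pow g
  have h1 : cyclotomic 11 ℚ ^ 5 ∣ (A * D - B * C) * X ^ n := by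
    refine ⟨g', ?_⟩
    apply Polynomial.toLaurent_injective
    rw [map_mul, map_mul, hg, hg', Polynomial.toLaurent_X_pow, mul_assoc]
  have cX : IsCoprime (cyclotomic 11 ℚ ^ 5) ((X : ℚ[X]) ^ n) := by
    apply IsCoprime.pow
    rw [cyc]
    refine ⟨1, -(∑ i ∈ Finset.range 10, X ^ i), ?_⟩
    simp [phi, Finset.sum_range_succ]
    ring
  have h2 : cyclotomic 11 ℚ ^ 5 ∣ A * D - B * C := cX.dvd_of_dvd_mul_right h1
  have h3 : cyclotomic 11 ℚ ^ 5 ∣ big X * (B * D) := by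
    rw [key2]; exact h2.mul_right _
  have cBD : IsCoprime (cyclotomic 11 ℚ ^ 5) (B * D) := cB.symm.mul_right cD.symm
  have h4 : cyclotomic 11 ℚ ^ 5 ∣ big X := by
    generalize big (X : ℚ[X]) = bb at h3
    exact cBD.dvd_of_dvd_mul_right h3
  have h5 : (cyclotomic 11 ℤ ^ 5).map (Int.castRingHom ℚ) ∣
      (big (X : ℤ[X])).map (Int.castRingHom ℚ) := by
    have := map_big (Polynomial.mapRingHom (Int.castRingHom ℚ)) (X : ℤ[X])
    simp only [coe_mapRingHom, map_X] at this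
    rw [this, Polynomial.map_pow, map_cyclotomic]
    exact h4
  rw [Polynomial.map_dvd_map _ (RingHom.injective_int _) ((cyclotomic.monic 11 ℤ).pow 5)] at h5
  have h6 := map_dvd (Polynomial.evalRingHom (2 : ℤ)) h5
  have : Fact (Nat.Prime 11) := ⟨by norm_num⟩
  have h7 : cyclotomic 11 ℤ = phi (X : ℤ[X]) := by rw [cyclotomic_prime, phi]
  rw [map_big, h7, map_pow, map_phi] at h6
  simp only [coe_evalRingHom, eval_X] at h6
  exact not_dvd h6

end Proof

theorem result : ¬ ∀ p : ℕ, p.Prime → 3 < p →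
    Cong (cyclotomic p ℚ ^ 5) (S p)
      ((1 / 6) * ((p : RatFunc ℚ) - 1) * ((p : RatFunc ℚ) - 3) * (2 * (p : RatFunc ℚ) - 3) *
        ((p : RatFunc ℚ) - 2) ^ 2 * (1 - q) ^ 2 *
        algebraMap ℚ[X] (RatFunc ℚ) (cyclotomic p ℚ) ^ 4) := by
  intro h
  have h11 := h 11 (by norm_num) (by norm_num)
  apply fails
  convert h11 using 3
  norm_num

end Pool.Agent.Old.MP_328b17_nt.Disproof
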